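import Pool.Agent.Helper58.NQ.Push

/-!
# NK: nondeterministic pushdown programs, rare symbols or bounded length
-/

set_option autoImplicit false

namespace Pool.Agent.Helper58.NK

open Pool.Agent.Helper74.NW
open Pool.Agent.Helper78.NW (nc run_length)

variable {C W Z Q Γ : Type}

/-- From a bound for all nondeterministic programs (at most `Smax` states) with the property `Sd` of all results, to
pushdown programs with this property of all results. `Θ` is a property of one computation (with its number of steps),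
`Φ` one of all computations. -/
theorem push_two [Fintype C] [Finite W] [Fintype Q] (P : NPProg C W Z Q Γ) (c0 : C) {b Smax : ℕ}
    (hQ : (2 * Fintype.card Q ^ 2 + 2) ^ (b + 2) ≤ Smax) (Sd : (C → W) → Z → Prop)
    (Θ Θ' Φ Ψ : (C → W) → List C → Z → Prop)
    (hΘ : ∀ J l l' z, Θ J l z → l'.Perm (c0 :: l) → Θ' J l' z)
    (hΦ : ∀ J l l' z, Φ J l z → l'.Perm (c0 :: l) → Ψ J l' z) (X : ℝ)
    (hP : ∀ J l k z, P.Ends J l k z → Sd J z)
    (hmain : ∀ S ≤ Smax, ∀ P' : NProg C W Z S, (∀ J l z, P'.Ends J l z → Sd J z) →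
      (Nat.card {J : C → W // (∃ l z, P'.Ends J l z ∧ l.length ≤ 2 ^ b + 1 ∧ Θ' J l z) ∧
        ∀ l z, P'.Ends J l z → Ψ J l z} : ℝ) ≤ X) :
    (Nat.card {J : C → W // (∃ l k z, P.Ends J l k z ∧ k ≤ 2 ^ b ∧ Θ J l z) ∧
      ∀ l k z, P.Ends J l k z → Φ J l z} : ℝ) ≤ X := by
  classical
  have : Fintype W := Fintype.ofFinite W
  obtain ⟨S, hS, P', hB⟩ := Pool.Agent.Helper1.NW.sim P c0 b
  refine le_trans ?_ (hmain S (hS.trans hQ) P' ?_)
  · have h : Nat.card {J : C → W // (∃ l k z, P.Ends J l k z ∧ k ≤ 2 ^ b ∧ Θ J l z) ∧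
        ∀ l k z, P.Ends J l k z → Φ J l z} ≤
        Nat.card {J : C → W // (∃ l z, P'.Ends J l z ∧ l.length ≤ 2 ^ b + 1 ∧ Θ' J l z) ∧
          ∀ l z, P'.Ends J l z → Ψ J l z} := by
      rw [nc, nc]
      apply Finset.card_le_card
      intro J hJ
      rw [Finset.mem_filter] at hJ ⊢
      obtain ⟨_, ⟨l0, k0, z0, h0, hk0, hθ⟩, hall⟩ := hJ
      refine ⟨Finset.mem_univ _, ?_, ?_⟩
      · obtain ⟨l1, h1, hp⟩ := (hB J).1 l0 k0 z0 h0 hk0
        refine ⟨_, _, h1, ?_, hΘ J l0 (c0 :: l1) z0 hθ (List.Perm.cons c0 hp)⟩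
        obtain ⟨y, hy, _⟩ := h0
        have h2 := run_length hy
        have h3 := hp.length_eq
        rw [List.length_cons]
        omega
      · intro l z hl
        obtain ⟨l1, n1, h1, hp⟩ := (hB J).2 l z hl
        exact hΦ J l1 l z (hall l1 n1 z h1) hp
    exact_mod_cast h
  · intro J l z hl
    obtain ⟨l1, n1, h1, _⟩ := (hB J).2 l z hl
    exact hP J l1 n1 z h1

/-- One more query `c0`: one of the rare cells is lost. -/
theorem rare_perm {r w : ℕ} (c0 : C) (l l' : List C) [DecidableEq C]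
    (h : ∃ X : Finset C, w + 1 ≤ X.card ∧ ∀ x ∈ X, l.count x ≤ r) (hp : l'.Perm (c0 :: l)) :
    ∃ X : Finset C, w ≤ X.card ∧ ∀ x ∈ X, l'.count x ≤ r := by
  obtain ⟨X, hX, hl⟩ := h
  refine ⟨X.erase c0, ?_, fun x hx => ?_⟩
  · have := Finset.pred_card_le_card_erase (s := X) (a := c0)
    omega
  · rw [hp.count_eq, List.count_cons]
    have h8 : c0 ≠ x := (Finset.ne_of_mem_erase hx).symm
    have h9 := hl x (Finset.mem_of_mem_erase hx)
    simpa [h8] using h9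

/-- C7: in every computation with a result at least `w + 1` cells are queried at most `r` times each, all other cells
arbitrarily often; a result in `2 ^ b` steps exists. -/
theorem push_rare [Fintype C] [DecidableEq C] [Finite W] [Fintype Q] (P : NPProg C W Z Q Γ) (c0 : C) {b Smax r w : ℕ}
    (hQ : (2 * Fintype.card Q ^ 2 + 2) ^ (b + 2) ≤ Smax) (Sd : (C → W) → Z → Prop) (X : ℝ)
    (hP : ∀ J l k z, P.Ends J l k z → Sd J z)
    (hmain : ∀ S ≤ Smax, ∀ P' : NProg C W Z S, (∀ J l z, P'.Ends J l z → Sd J z) →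
      (Nat.card {J : C → W // (∃ l z, P'.Ends J l z ∧ l.length ≤ 2 ^ b + 1) ∧
        ∀ l z, P'.Ends J l z → ∃ Y : Finset C, w ≤ Y.card ∧ ∀ x ∈ Y, l.count x ≤ r} : ℝ) ≤ X) :
    (Nat.card {J : C → W // (∃ l k z, P.Ends J l k z ∧ k ≤ 2 ^ b) ∧
      ∀ l k z, P.Ends J l k z → ∃ Y : Finset C, w + 1 ≤ Y.card ∧ ∀ x ∈ Y, l.count x ≤ r} : ℝ) ≤ X := by
  have h := push_two P c0 hQ Sd (fun _ _ _ => True) (fun _ _ _ => True)
    (fun _ l _ => ∃ Y : Finset C, w + 1 ≤ Y.card ∧ ∀ x ∈ Y, l.count x ≤ r)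
    (fun _ l _ => ∃ Y : Finset C, w ≤ Y.card ∧ ∀ x ∈ Y, l.count x ≤ r)
    (fun _ _ _ _ _ _ => trivial) (fun _ l l' _ h hp => rare_perm c0 l l' h hp) X hP
    (fun S hS P' hP' => by simpa using hmain S hS P' hP')
  simpa using h

/-- The same with one condition less: no bound for the length is used. -/
theorem push_rare' [Fintype C] [DecidableEq C] [Finite W] [Fintype Q] (P : NPProg C W Z Q Γ) (c0 : C)
    {b Smax r w : ℕ} (hQ : (2 * Fintype.card Q ^ 2 + 2) ^ (b + 2) ≤ Smax) (Sd : (C → W) → Z → Prop) (X : ℝ)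
    (hP : ∀ J l k z, P.Ends J l k z → Sd J z)
    (hmain : ∀ S ≤ Smax, ∀ P' : NProg C W Z S, (∀ J l z, P'.Ends J l z → Sd J z) →
      (Nat.card {J : C → W // (∃ l z, P'.Ends J l z) ∧
        ∀ l z, P'.Ends J l z → ∃ Y : Finset C, w ≤ Y.card ∧ ∀ x ∈ Y, l.count x ≤ r} : ℝ) ≤ X) :
    (Nat.card {J : C → W // (∃ l k z, P.Ends J l k z ∧ k ≤ 2 ^ b) ∧
      ∀ l k z, P.Ends J l k z → ∃ Y : Finset C, w + 1 ≤ Y.card ∧ ∀ x ∈ Y, l.count x ≤ r} : ℝ) ≤ X :=
  Pool.Agent.Helper58.NQ.push_gen P c0 hQ Sd (fun _ l _ => ∃ Y : Finset C, w + 1 ≤ Y.card ∧ ∀ x ∈ Y, l.count x ≤ r)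
    (fun _ l _ => ∃ Y : Finset C, w ≤ Y.card ∧ ∀ x ∈ Y, l.count x ≤ r)
    (fun _ l l' _ h hp => rare_perm c0 l l' h hp) X hP hmain

/-- Clause (K): some computation with a result has at most `2 ^ b` steps and at most `T` queries (with repetitions). -/
theorem push_len [Fintype C] [Finite W] [Fintype Q] (P : NPProg C W Z Q Γ) (c0 : C) {b Smax T : ℕ}
    (hQ : (2 * Fintype.card Q ^ 2 + 2) ^ (b + 2) ≤ Smax) (Sd : (C → W) → Z → Prop) (X : ℝ)
    (hP : ∀ J l k z, P.Ends J l k z → Sd J z)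
    (hmain : ∀ S ≤ Smax, ∀ P' : NProg C W Z S, (∀ J l z, P'.Ends J l z → Sd J z) →
      (Nat.card {J : C → W // ∃ l z, P'.Ends J l z ∧ l.length ≤ T + 1} : ℝ) ≤ X) :
    (Nat.card {J : C → W // ∃ l k z, P.Ends J l k z ∧ k ≤ 2 ^ b ∧ l.length ≤ T} : ℝ) ≤ X := by
  classical
  have h := push_two P c0 hQ Sd (fun _ l _ => l.length ≤ T) (fun _ l _ => l.length ≤ T + 1)
    (fun _ _ _ => True) (fun _ _ _ => True)
    (fun _ l l' _ h hp => by rw [hp.length_eq, List.length_cons]; omega) (fun _ _ _ _ _ _ => trivial) X hP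
    (fun S hS P' hP' => by
      refine le_trans ?_ (hmain S hS P' hP')
      have : Fintype W := Fintype.ofFinite W
      have h1 : Nat.card {J : C → W // (∃ l z, P'.Ends J l z ∧ l.length ≤ 2 ^ b + 1 ∧ l.length ≤ T + 1) ∧
          ∀ l z, P'.Ends J l z → True} ≤ Nat.card {J : C → W // ∃ l z, P'.Ends J l z ∧ l.length ≤ T + 1} := by
        rw [nc, nc]
        apply Finset.card_le_card
        intro J hJ
        rw [Finset.mem_filter] at hJ ⊢
        obtain ⟨_, ⟨l, z, h1, _, h2⟩, _⟩ := hJ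
        exact ⟨Finset.mem_univ _, l, z, h1, h2⟩
      exact_mod_cast h1)
  simpa using h

end Pool.Agent.Helper58.NK
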